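import Pool.Agent.K9h25.M.Adj2

/-!
# Abundance for adjoint pairs on hypersurfaces of tori

Let `f` and `h 1, ..., h p` be Laurent polynomials in `n + 1` variables over `ℂ`, `n ≥ 1`, and let
`X₀` be an irreducible component of the hypersurface `f = 0` of the torus `T = (ℂ^*)^(n + 1)`, along
which `f` vanishes to the first order; its function field is `L`, the `x i` are the coordinates on
`X₀`. The polynomials are arbitrary, `X₀` may have arbitrary singularities, and its closures in toric
varieties too.

Let `A` be a weight: a function on the nonzero integral vectors with values in `[0, 1]`, with bounded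
denominators, such that `1 - A` is subadditive and `A (g v) ≤ g A v`; let the `c j ≥ 0` be rational
numbers. Let `B` be the boundary on the toric varieties `Y ⊇ T` with the multiplicities `1 - A` at
infinity and `c j` on the divisors `h j = 0`. Let `P` be a divisor over `X₀`, and `v` the vector of the
orders of the `x i` at `P`. The order at `P` of the closure in `Y` of the divisor `h j = 0` is
`ord_P (h j) - min ⟨supp (h j), v⟩`, so the restriction of `B` has the multiplicity `restriction` at
`P`. The divisor on `Y` of the form `(dx_0 / x_0) ∧ ... ∧ (dx_n / x_n) / f` is `-X₀ - D`, near `X₀` and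
for `P` over the divisor at infinity `D_v` (if `v ≠ 0`), where `D` has the multiplicity
`1 + min ⟨supp f, v⟩` on `D_v`; let `ω` be its residue on `X₀`. So adjunction gives a boundary
`B*` on `X₀`, `K_{X₀} + B* = (K_Y + X₀ + B)|X₀`, whose multiplicity at `P` is
`restriction - 1 - min ⟨supp f, v⟩ - ord_P ω` (without the `-1`, if `v = 0`). Rational numbers `b P` are
adjoint multiplicities if
`B* ≤ b ≤ min (1, restriction of B)`. Examples of adjoint multiplicities:
* `b = 0` for `A = 1`, no `h j`, if `X₀` has canonical singularities and
  its closures are log canonical at infinity, in the sense of the adjunction: the orders of `ω` on the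
  divisors `P` over `X₀` are at least `0` if `v = 0`, and at least `- 1 - min ⟨supp f, v⟩` if `v ≠ 0`;
* `b` the restriction of `B`, if this is at most `1` and the orders of `ω` are as before;
* nondegenerate pairs, with the multiplicities of the starting theorems
  `MP_e06174_ag.NondegenerateEtaleQuotients` and `MP_9a2ae6_ag.NondegenerateLogPairs` (which are for
  complete intersections), and more generally the mild pairs: for all `v` and all points
  `c` of the initial degeneration of `X₀` in the direction `v`, the logarithmic gradients of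
  `ini v f` and of the `ini v (h j)` which vanish at `c` are linearly independent at `c`, or no
  `ini v (h j)` vanishes at `c` and the logarithmic Hessian of `ini v f` at `c` has rank at least two,
  and at least three if `v = 0` (theorem `mild` below; for instance all hypersurfaces with few
  monomials are mild, see part 3 of the theorem of `MP_e06174_ag.MildHypersurfaces`).

The pairs `(X, Δ)` of the theorem are the projective pairs which are commensurable with `(X₀, b)`:
the function fields `K` of `X` and `L` of `X₀` have a common finite extension `M`, to which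
`K_X + Δ` and `K_{X₀} + b` have the same pull-back, and the log discrepancies of `(X, Δ)` are at least
the ones given by `b`: birational models of `X₀`, quotients by finite groups, covers.

**Theorem.** `κ (K_X + Δ) = ν (K_X + Δ)`: either both are equal to some `d`, `0 ≤ d ≤ n`, or
`K_X + Δ` is not pseudoeffective and both are `-∞`. If the polytope of `K_Y + X₀ + B` is not empty,
then both are the dimension of the image of `X₀` in the torus whose characters are the integral
vectors parallel to the polytope.

For `Δ = 0` and `X` smooth this answers the question for these projective manifolds `X`: if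
`κ (X) = -∞` then `K_X` is not pseudoeffective (and then `X` is uniruled by the theorem of Boucksom,
Demailly, Păun and Peternell). For instance, `X` may be birational to a hypersurface `X₀` with
canonical singularities in the torus and log canonical at infinity, to the quotient of `X₀` by a
finite group, or to a cover of `X₀` which is branched over the divisors `h j = 0` and at infinity.

The proof. The starting library proves this for nondegenerate systems (`VSys`). Here the
nondegeneracy is not used (`MSys`): only `gr x f ≠ 0` and the lower bound for the orders of the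
residue form given by the adjoint multiplicities (`adj_sys`). The lower bound for `κ` follows from
this at once. The upper bounds: to find divisors on the generic fibre of the map given by the
monomials parallel to the polytope, on which sections of the multiples have bounded orders, the
starting proof uses that the equation is a local parameter together with the coordinates. Now charts
given by monomials are used, such that the prime divisors have vectors `v` in the cones spanned by at
most two tight vectors, and the order of the residue form is bounded from above by derivatives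
(`num_zeroM`, `neg_zeroM`), for every weight. If only the polytope of a perturbation is not empty and
the fibres are points, then the equation is solved rationally and eliminated (`MSys.stepM`,
`MSys.elim`), and the projective space with the transformed boundary is a system without equations of
the starting library.
-/

set_option autoImplicit false

open FF IntermediateField Pool.Agent Pool.Agent.W602.GT Pool.Agent.Y172 Pool.Agent.Y191
  Pool.Agent.Y174 Pool.Agent.R885

namespace Pool.Agent.Results.MP_e06174_ag.AdjointPairs

section

variable {L : Type} [Field L] [Algebra ℂ L]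

/-- `x` is the generic point of a component `X₀`, with function field `L`, of the hypersurface
`f = 0` of the torus `(ℂ^*) ^ (n + 1)`, not contained in the sets `h j = 0`, and the logarithmic
gradient of `f` does not vanish identically on `X₀`. -/
def IsGenericPoint {n p : ℕ} (f : (Fin (n + 1) → ℤ) →₀ ℂ) (h : Fin p → (Fin (n + 1) → ℤ) →₀ ℂ)
    (x : Fin (n + 1) → L) : Prop :=
  (∀ i, x i ≠ 0) ∧ ev x f = 0 ∧ gr x f ≠ 0 ∧ (∀ j, ev x (h j) ≠ 0) ∧
    IntermediateField.adjoin ℂ (Set.range x) = ⊤ ∧ Algebra.trdeg ℂ L = (n : ℕ)

/-- `ω` is the residue on the hypersurface `f = 0` of the form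
`(dx_0 / x_0) ∧ ... ∧ (dx_n / x_n) / f`: the product of `ω` and of the `i`-th entry of the logarithmic
gradient of `f` is `(-1) ^ i` times the product of the `dx_j / x_j`, `j ≠ i`. The form `ω` is given by
its values on `n` vector fields. -/
def IsResidue {n : ℕ} (f : (Fin (n + 1) → ℤ) →₀ ℂ) (x : Fin (n + 1) → L)
    (ω : (Fin n → Derivation ℂ L L) → L) : Prop :=
  ∀ (i : Fin (n + 1)) (D : Fin n → Derivation ℂ L L),
    ω D * gr x f i = (-1) ^ (i : ℕ) *
      Matrix.det (Matrix.of fun a b => D a (x (i.succAbove b)) / x (i.succAbove b))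

/-- The function `A` on the integral vectors is a weight: on the nonzero vectors it is at least `0`,
at most `1`, with bounded denominators, `A (v + w) ≥ A v + A w - 1` and `A (g v) ≤ g A v`. -/
structure IsWeight {r : ℕ} (A : (Fin r → ℤ) → ℚ) : Prop where
  nonneg : ∀ v, v ≠ 0 → 0 ≤ A v
  le_one : ∀ v, A v ≤ 1
  denom : ∃ D : ℕ, 1 ≤ D ∧ ∀ v, ∃ z : ℤ, (D : ℚ) * A v = z
  add : ∀ v w, v ≠ 0 → w ≠ 0 → v + w ≠ 0 → A v + A w - 1 ≤ A (v + w)
  smul : ∀ (g : ℤ) v, 0 < g → v ≠ 0 → A (g • v) ≤ g * A v

open Classical in
/-- The multiplicity at `P` of the restriction to `X₀` of the boundary `B` of the toric varieties,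
with the multiplicities `1 - A` at infinity and `c j` on the closures of the divisors `h j = 0`. -/
noncomputable def restriction {n p : ℕ} (A : (Fin (n + 1) → ℤ) → ℚ) (c : Fin p → ℚ)
    (h : Fin p → (Fin (n + 1) → ℤ) →₀ ℂ) (x : Fin (n + 1) → L) (P : Place ℂ L) : ℚ :=
  (if vec P x = 0 then 0 else 1 - A (vec P x)) +
    ∑ j, c j * ((P.ord (ev x (h j)) : ℚ) - mn (vec P x) (h j))

open Classical in
/-- The numbers `b P` are adjoint multiplicities: they are at most `1`, at most the multiplicities of
the restriction of `B`, and at least the multiplicities on the divisors `P` over `X₀` of the boundary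
`B*` given by the adjunction `K_{X₀} + B* = (K_Y + X₀ + B)|X₀`: these are
`restriction - 1 - min ⟨supp f, v⟩ - ord_P ω`, where `v` is the vector of the orders of the `x i` at `P`
(without the `-1`, if `v = 0`). The order of the form `ω` at `P` is the least order of its values on
regular vector fields. -/
structure IsAdjoint {n p : ℕ} (f : (Fin (n + 1) → ℤ) →₀ ℂ)
    (h : Fin p → (Fin (n + 1) → ℤ) →₀ ℂ) (x : Fin (n + 1) → L)
    (ω : (Fin n → Derivation ℂ L L) → L) (A : (Fin (n + 1) → ℤ) → ℚ) (c : Fin p → ℚ)
    (b : Place ℂ L → ℚ) : Prop where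
  le_one : ∀ P, b P ≤ 1
  le_restriction : ∀ P, b P ≤ restriction A c h x P
  ge_adjunction : ∀ P, Divisorial n P → ∀ E : Fin n → Derivation ℂ L L, (∀ a, DerReg P (E a)) →
    ω E = 0 ∨ restriction A c h x P - (if vec P x = 0 then 0 else 1) - (mn (vec P x) f : ℚ) - b P ≤
      P.ord (ω E)

end

section

variable {K L : Type} [Field K] [Field L] [Algebra ℂ K] [Algebra ℂ L]

/-- `(X, Δ)` is a projective pair with function field `K` which is commensurable with the pair
`(X₀, b)` with function field `L`: the pull-backs of `K_X + Δ` and of `K_{X₀} + b` to the common finite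
extension `M` of `K` and `L` coincide. That is, if the place `P'` of `M` lies over the prime divisor
`P` of `X` and over the place `Q` of `L`, with the ramification indices `e` and `e'`, then
`e (1 - Δ P) = e' (1 - b Q)`. Moreover, for all divisors `P` over `X`, the log discrepancy of `(X, Δ)`
along `P` is at least `e' (1 - b Q) / e`. -/
structure IsCommensurable (M : Type) [Field M] [Algebra ℂ M] [Algebra K M] [Algebra L M]
    (b : Place ℂ L → ℚ) {N : ℕ} (y : Fin (N + 1) → K) (n : ℕ) (Δ : Place ℂ K → ℚ) : Prop where
  normal : NormalModel y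
  effective : Effective y Δ
  mult : ∀ P, IsPrimeDivisor y P → ∀ (P' : Place ℂ M) (Q : Place ℂ L) (e e' : ℕ),
    LiesOn P' P e → LiesOn P' Q e' → (e : ℚ) * (1 - Δ P) = e' * (1 - b Q)
  disc : ∀ P, Divisorial n P → ∀ (P' : Place ℂ M) (Q : Place ℂ L) (e e' : ℕ),
    LiesOn P' P e → LiesOn P' Q e' → LogDisc y n Δ P (e' * (1 - b Q) / e)

end

/-- The polytope of `K_Y + X₀ + B`: the rational vectors `u` such that
`⟨u, v⟩ ≥ A v + ∑ j, c j * min ⟨supp (h j), v⟩ + min ⟨supp f, v⟩` for all integral `v ≠ 0`. -/
def Polytope {r p : ℕ} (A : (Fin r → ℤ) → ℚ) (c : Fin p → ℚ) (f : (Fin r → ℤ) →₀ ℂ)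
    (h : Fin p → (Fin r → ℤ) →₀ ℂ) : Set (Fin r → ℚ) :=
  {u | ∀ v : Fin r → ℤ, v ≠ 0 →
    A v + ∑ j, c j * (mn v (h j) : ℚ) + (mn v f : ℚ) ≤ ∑ i, u i * (v i : ℚ)}

/-- The integral vectors which are parallel to the polytope. -/
def Directions {r p : ℕ} (A : (Fin r → ℤ) → ℚ) (c : Fin p → ℚ) (f : (Fin r → ℤ) →₀ ℂ)
    (h : Fin p → (Fin r → ℤ) →₀ ℂ) : Set (Fin r → ℤ) :=
  {w | ∃ u ∈ Polytope A c f h, ∃ N : ℕ, 1 ≤ N ∧ (fun i => u i + (w i : ℚ) / N) ∈ Polytope A c f h}

/-- `κ (K_X + Δ) = ν (K_X + Δ)`: either both are equal to `d ≥ 0`, for all effective integral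
divisors `A` in the definition of `ν`, or both are `-∞` and `K_X + Δ` is not pseudoeffective. -/
def EqualDimensions {K : Type} [Field K] [Algebra ℂ K] {N : ℕ} (y : Fin (N + 1) → K) (n : ℕ)
    (Δ : Place ℂ K → ℚ) : Prop :=
  (∃ d : ℕ, d ≤ n ∧ kodairaDim y n Δ = (d : WithBot ℕ) ∧
    ∀ A, Effective y A → Integral y A → numericalDim y n Δ A = (d : EReal)) ∨
  (kodairaDim y n Δ = ⊥ ∧ ∀ A, Effective y A →
    (∃ M0 : ℕ, ∀ m : ℕ, M0 ≤ m → h0 y n m (m • Δ + A) = 0) ∧ numericalDim y n Δ A = ⊥)

section

variable {L : Type} [Field L] [Algebra ℂ L] {n p : ℕ} {f : (Fin (n + 1) → ℤ) →₀ ℂ}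
  {h : Fin p → (Fin (n + 1) → ℤ) →₀ ℂ} {x : Fin (n + 1) → L}

theorem isAdj {ω : (Fin n → Derivation ℂ L L) → L} {A : (Fin (n + 1) → ℤ) → ℚ} {c : Fin p → ℚ}
    {b : Place ℂ L → ℚ} (hb : IsAdjoint f h x ω A c b) : K9h25.M.IsAdj f h x ω A c b := by
  refine ⟨hb.le_one, fun P => ?_, fun P hP E hE => ?_⟩
  · have h1 := hb.le_restriction P
    unfold restriction at h1
    convert h1
  · rcases hb.ge_adjunction P hP E hE with h1 | h1
    · exact Or.inl h1
    right
    unfold restriction at h1
    by_cases hv : vec P x = 0
    · rw [if_pos hv] at h1 ⊢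
      rw [if_pos hv] at h1
      linarith
    · rw [if_neg hv] at h1 ⊢
      rw [if_neg hv] at h1
      linarith

/-- The residue exists. -/
theorem residue_exists (hx : IsGenericPoint f h x) :
    ∃ ω : (Fin n → Derivation ℂ L L) → L, IsResidue f x ω :=
  K9h25.M.exists_isRes hx.1 hx.2.1 hx.2.2.1

/-- **Mild pairs.** If the pair is mild, then the multiplicities `bdry A c x h` are adjoint. -/
theorem mild (hx : IsGenericPoint f h x) (hfh : K9h25.M.MildP f h x)
    {ω : (Fin n → Derivation ℂ L L) → L} (hω : IsResidue f x ω) {A : (Fin (n + 1) → ℤ) → ℚ}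
    (hA : IsWeight A) {c : Fin p → ℚ} (hc : ∀ j, 0 ≤ c j ∧ c j ≤ 1) :
    IsAdjoint f h x ω A c (bdry A c x h) := by
  have h1 := K9h25.M.mild_adj hx.1 hx.2.1 hx.2.2.1 hx.2.2.2.1 hfh hω
    ⟨hA.nonneg, hA.le_one, hA.denom, hA.add, hA.smul⟩ hc
  refine ⟨h1.le_one, fun P => ?_, fun P hP E hE => ?_⟩
  · have h2 := h1.upper P
    unfold restriction
    convert h2
  · rcases h1.lower P hP E hE with h2 | h2
    · exact Or.inl h2
    right
    unfold restriction
    by_cases hv : vec P x = 0
    · rw [if_pos hv] at h2 ⊢
      rw [if_pos hv]
      linarith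
    · rw [if_neg hv] at h2 ⊢
      rw [if_neg hv]
      linarith

end

/-- **Abundance for adjoint pairs.** Let `n ≥ 1`, let `f`, `h` be Laurent polynomials in `n + 1`
variables, let `x` be the generic point of a component `X₀` of the hypersurface `f = 0` of the torus,
with function field `L`, on which the gradient of `f` does not vanish identically, and let `ω` be the
residue form. Let `A` be a weight, `0 ≤ c j`, and let `b` be adjoint multiplicities. Let `(X, Δ)` be a
projective pair with function field `K`, and let `M` be a finite extension of `K` and of `L` such that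
the pull-backs of `K_X + Δ` and of `K_{X₀} + b` to `M` coincide.
Then `κ (K_X + Δ) = ν (K_X + Δ)`. If the polytope of `K_Y + X₀ + B` is not empty, this is the dimension
of the image of `X₀` in the torus whose characters are the integral vectors parallel to it. -/
theorem result {n p : ℕ} (hn : 1 ≤ n) {f : (Fin (n + 1) → ℤ) →₀ ℂ}
    {h : Fin p → (Fin (n + 1) → ℤ) →₀ ℂ} {K L M : Type} [Field K] [Field L] [Field M]
    [Algebra ℂ K] [Algebra ℂ L] [Algebra ℂ M] [Algebra K M] [Algebra L M] [IsScalarTower ℂ K M]
    [IsScalarTower ℂ L M] [FiniteDimensional K M] [FiniteDimensional L M] {x : Fin (n + 1) → L}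
    (hx : IsGenericPoint f h x) {ω : (Fin n → Derivation ℂ L L) → L} (hω : IsResidue f x ω)
    {A : (Fin (n + 1) → ℤ) → ℚ} (hA : IsWeight A) {c : Fin p → ℚ} (hc : ∀ j, 0 ≤ c j)
    {b : Place ℂ L → ℚ} (hb : IsAdjoint f h x ω A c b) {N : ℕ}
    {y : Fin (N + 1) → K} {Δ : Place ℂ K → ℚ} (hy : IsCommensurable M b y n Δ) :
    EqualDimensions y n Δ ∧ ((Polytope A c f h).Nonempty → ∀ d : ℕ,
      Algebra.trdeg ℂ (IntermediateField.adjoin ℂ {z : L |
        ∃ w ∈ Directions A c f h, z = R885.mono x w}) = (d : ℕ) →
      kodairaDim y n Δ = (d : WithBot ℕ) ∧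
        ∀ A', Effective y A' → Integral y A' → numericalDim y n Δ A' = (d : EReal)) := by
  have hpoly : Polytope A c f h =
      R885.N.FineG A (fun v => ∑ j, c j * (mn v (h j) : ℚ)) (fun _ : Fin 1 => f) := by
    unfold Polytope R885.N.FineG
    simp only [Fin.sum_univ_one]
    rfl
  have hdirs : Directions A c f h =
      R885.N.dirsG A (fun v => ∑ j, c j * (mn v (h j) : ℚ)) (fun _ : Fin 1 => f) := by
    unfold Directions
    rw [hpoly]
    rfl
  obtain ⟨hx1, hx2, hx3, hx4, hx5, hx6⟩ := hx
  obtain ⟨hq, hv⟩ := K9h25.M.adj_final (M := M) hn hx6 hx1 hx5 hx2 hx3 hx4 hω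
    ⟨hA.nonneg, hA.le_one, hA.denom, hA.add, hA.smul⟩ hc (isAdj hb)
    ⟨hy.normal, hy.effective, hy.mult, hy.disc⟩
  rw [hpoly, hdirs]
  exact ⟨hq.equal hy.normal hy.effective, fun hF d hd =>
    (hv hF d hd).dims hy.normal hy.effective⟩

end Pool.Agent.Results.MP_e06174_ag.AdjointPairs
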