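import Pool.Agent.K9h25.Fin1

/-!
# Kodaira dimension -∞ and pseudoeffectivity for degenerate hypersurfaces of tori

Let `n ≥ 1`, let `f` be a nonzero Laurent polynomial in `n + 1` variables over `ℂ`, and let `V` be an
irreducible component of the hypersurface `f = 0` of the torus `(ℂ^*)^(n + 1)`, with function field
`K`; the `x i` are the coordinates on `V`. All statements concern the smooth projective varieties
`X` birational to `V`.

**Theorem, part 1.** Let `f` be an arbitrary Laurent polynomial which vanishes to the first order
along `V`; there is no condition on the coefficients, so `V` and its closures in toric varieties may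
have arbitrary singularities, at infinity too. If the real Fine interior of the Newton polytope of
`f` is empty (there is no point `u` whose lattice distance from all supporting hyperplanes is at
least `1`), then `K_X` is not pseudoeffective.

**Part 2.** The hypersurface is called mild if for all integral vectors `v` the initial part
`ini v f` (the sum of the terms of `f` at which the linear function `v` is minimal) has, at all its
singular points in the torus, a logarithmic Hessian of rank at least `2`, and of rank at least `3` if
`v = 0`, so `ini v f = f`. The nondegenerate hypersurfaces in the sense of Khovanskii are those without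
such singular points. If `V` is mild, then `κ(X) = -∞` if and only if `K_X` is not pseudoeffective,
if and only if the real Fine interior of the Newton polytope is empty.

**Part 3.** The hypersurface is mild for all values of the (nonzero) coefficients, if the exponents
of `f` satisfy these inequalities: for all `v`, the exponents of `ini v f` are affinely independent,
or their number is at most `2 d`, where `d` is the dimension of their affine span, and at most
`2 d - 1` if `v = 0`.

So the question on class `C`, for projective manifolds, has a positive answer for the varieties `X`
which are birational to mild hypersurfaces, in the form: if `κ(X) = -∞` then `K_X` is not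
pseudoeffective (and then `X` is uniruled by the theorem of Boucksom, Demailly, Păun and
Peternell); in particular for all hypersurfaces with the exponents as in part 3.

Proof. Part 2: let `Om` be the residue form of `V`. At a prime divisor over `V` where the orders of
the `x i` are the entries of `v`, at whose general point the initial part is singular, with Hessian
of rank at least `s + 1`, the order of `Om` is at least `s - 2 - min_m (m ⬝ v)`: `Om` is a quotient of
determinants, in which `s` rows may be taken from the Hessian; the pairings of these rows with
regular vector fields are the derivatives of the entries of the gradient, which have positive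
orders (`om_ge_mild`). Hence a point of the Fine interior gives an effective multiple of `K_X`.
Part 3: by the inequality of Sylvester the product of the matrix of the exponents with a diagonal
matrix and its transpose has a large rank (`mildAt_of_few`).

Part 1: one takes the largest `t` such that the Newton polytope has points with distance at least
`t` from all supporting hyperplanes, a general point `u` of this kind and the set `S` of the tight
vectors. The monomials orthogonal to `S` give a fibration of `V`. On its generic fibre there are
charts, given by monomials, such that the prime divisors on them have vectors `v` in cones spanned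
by at most two vectors `σ i` of `S`. The order of the residue form of the fibre at these divisors is
bounded from above (`om_upper`): if the gradient vanishes to a high order, the derivatives of all
functions vanish to a high order, because the ring generated by the coordinates is a localization
of the valuation ring up to a curve (`ord_le`). If there are two vectors `σ i` then the initial part
of `f` is not homogeneous for both, since monomials with different exponents are linearly
independent on the divisor (`ev_ne`), and this gives the missing bound (`two_arith`). If the fibres
are points, then `f` has lattice width one, and `V` is rational; if the Newton polytope is not of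
dimension `n + 1` then `V` is ruled.
-/

set_option autoImplicit false

open FF Pool.Agent Pool.Agent.R885 Pool.Agent.W602.GT Pool.Agent.K9h25

namespace Pool.Agent.Results.MP_e06174_ag.MildHypersurfaces

section

variable {K : Type} [Field K] [Algebra ℂ K]

/-- `x` is the generic point of a component `V`, with function field `K`, of the hypersurface `f = 0`
of the torus `(ℂ^*) ^ (n + 1)`. -/
structure IsGenericPoint {n : ℕ} (f : (Fin (n + 1) → ℤ) →₀ ℂ) (x : Fin (n + 1) → K) : Prop where
  f_ne : f ≠ 0
  x_ne : ∀ i, x i ≠ 0
  zero : ev x f = 0
  gen : IntermediateField.adjoin ℂ (Set.range x) = ⊤
  dim : Algebra.trdeg ℂ K = (n : ℕ)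

end

/-- The real Fine interior of the Newton polytope of `f` is empty: there is no rational point `u`
such that `u ⬝ v` is at least `1` plus the minimum of `m ⬝ v`, for `m` in the support of `f`, for all
nonzero integral vectors `v`. -/
def FineInteriorEmpty {r : ℕ} (f : (Fin r → ℤ) →₀ ℂ) : Prop :=
  ¬ ∃ u : Fin r → ℚ, ∀ v : Fin r → ℤ, v ≠ 0 →
    ∃ m ∈ f.support, 1 + ((m ⬝ᵥ v : ℤ) : ℚ) ≤ ∑ i, u i * (v i : ℚ)

/-- The logarithmic Hessian matrix of `f` at the point `c` of the torus: the matrix of the second
derivatives with respect to the logarithms of the coordinates. -/
noncomputable def logHessian {r : ℕ} (c : Fin r → ℂ) (f : (Fin r → ℤ) →₀ ℂ) :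
    Matrix (Fin r) (Fin r) ℂ :=
  Matrix.of fun i j => f.sum fun m a => a * ((m i * m j : ℤ) : ℂ) * mono c m

/-- The hypersurface `f = 0` is mild: at the singular points in the torus of the initial part
`ini v f` its logarithmic Hessian has rank at least two, and at least three if `v = 0`. -/
def IsMild {r : ℕ} (f : (Fin r → ℤ) →₀ ℂ) : Prop :=
  ∀ (v : Fin r → ℤ) (c : Fin r → ℂ), (∀ i, c i ≠ 0) → ev c (ini v f) = 0 → gr c (ini v f) = 0 →
    2 ≤ (logHessian c (ini v f)).rank ∧ (v = 0 → 3 ≤ (logHessian c (ini v f)).rank)

/-- The exponents of the initial part `ini v f` are affinely independent, or their number is at most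
`2 d`, where `d` is the dimension of their affine span, and at most `2 d - 1` if `v = 0`. -/
def FewMonomials {r : ℕ} (f : (Fin r → ℤ) →₀ ℂ) : Prop :=
  ∀ v : Fin r → ℤ,
    AffineIndependent ℚ (fun (a : (ini v f).support) (i : Fin r) => ((a : Fin r → ℤ) i : ℚ)) ∨
    (ini v f).support.card ≤ 2 * affDim (ini v f).support ∧
      (v = 0 → (ini v f).support.card + 1 ≤ 2 * affDim (ini v f).support)

/-- `K_X` is not pseudoeffective: for every finite set `S` of functions, a section of `M K_X + A`
vanishes for all large `M`, where `A` is the divisor generated by `S`; the sections are the
pluricanonical forms `ω` whose values on regular vector fields have, at every prime divisor, at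
least the order of some nonzero element of `S`. -/
def NotPseudoeffective (K : Type) [Field K] [Algebra ℂ K] (n : ℕ) : Prop :=
  ∀ S : Finset K, ∃ M0 : ℕ, ∀ M : ℕ, M0 ≤ M → ∀ ω : (Fin n → Derivation ℂ K K) → K,
    TwSec ℂ K n M (fun _ => False) S 1 ω → ∀ D, ω D = 0

/-- **Degenerate hypersurfaces of tori.** Let `V` be a component of the hypersurface `f = 0` of the
torus `(ℂ^*)^(n + 1)`, `n ≥ 1`, with function field `K`, and let `X` be smooth projective and
birational to `V`.
1. If the logarithmic gradient of `f` does not vanish identically on `V` and the real Fine interior
of the Newton polytope of `f` is empty, then `K_X` is not pseudoeffective.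
2. If the hypersurface is mild, then `κ(X) = -∞` if and only if `K_X` is not pseudoeffective, if and
only if the real Fine interior is empty.
3. If `f` has few monomials then the hypersurface is mild. -/
theorem result {n : ℕ} (hn : 1 ≤ n) {f : (Fin (n + 1) → ℤ) →₀ ℂ} {K : Type} [Field K]
    [Algebra ℂ K] {x : Fin (n + 1) → K} (hx : IsGenericPoint f x) :
    (gr x f ≠ 0 → FineInteriorEmpty f → NotPseudoeffective K n) ∧
    (IsMild f → [¬ KodGe ℂ K n (fun _ => False) 0, NotPseudoeffective K n,
      FineInteriorEmpty f].TFAE) ∧
    (FewMonomials f → IsMild f) := by
  have hFine : FineInteriorEmpty f ↔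
      ¬ ∃ u : Fin (n + 1) → ℚ, ∀ v, v ≠ 0 → 1 + (mn v f : ℚ) ≤ dq u v := by
    unfold FineInteriorEmpty
    simp only [mn_iff hx.f_ne]
  have hneg : gr x f ≠ 0 → FineInteriorEmpty f → NotPseudoeffective K n := fun h1 h2 =>
    notPsef_of_empty hn rfl hx.dim hx.x_ne hx.gen hx.f_ne hx.zero h1 (hFine.1 h2)
  refine ⟨hneg, fun hm => ?_, fun hfew v c hc h1 h2 => ?_⟩
  · have hM : Mild f := hm
    have hgr := mild_ne hM hx.f_ne hx.x_ne hx.gen hx.dim rfl hx.zero
    tfae_have 3 → 2 := hneg hgr
    tfae_have 2 → 1 := fun h1 h2 => not_notPsef_of_kod h2 h1
    tfae_have 1 → 3 := by
      intro h1
      rw [hFine]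
      rintro ⟨u, hu⟩
      exact h1 (kod_of_fine hM hx.f_ne hx.x_ne hx.gen hx.dim rfl hx.zero hu)
    tfae_finish
  · have hini0 : ini v f ≠ 0 := by
      obtain ⟨m0, hm0, hm0'⟩ := exists_mn hx.f_ne v
      intro h0
      have h3 : ini v f m0 = f m0 := by
        unfold ini
        rw [Finsupp.filter_apply, if_pos hm0']
      rw [h0, Finsupp.zero_apply] at h3
      exact Finsupp.mem_support_iff.1 hm0 h3.symm
    constructor
    · refine mildAt_of_few (s := 2) hini0 ?_ c hc h1 h2
      rcases hfew v with h3 | ⟨h3, -⟩
      · exact Or.inl h3
      · exact Or.inr (by omega)
    · intro hv
      refine mildAt_of_few (s := 3) hini0 ?_ c hc h1 h2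
      rcases hfew v with h3 | ⟨-, h3⟩
      · exact Or.inl h3
      · exact Or.inr (by have := h3 hv; omega)

end Pool.Agent.Results.MP_e06174_ag.MildHypersurfaces
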