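import Pool.Agent.K9h25.HKod
import Pool.Agent.N110.CanS

/-!
# Nonvanishing for varieties with a cohomologically hyperbolic rational self-map

Let `(X, Δ)` be a pair of a normal projective variety of irregularity zero and a `ℚ`-divisor such
that `K_X + Δ` is pseudo-effective, and let `f : X ⇢ X` be a dominant rational self-map of any
topological degree such that `f^* (K_X + Δ) ≤ K_X + Δ` (this is automatic if `Δ = 0` and `X` has
canonical singularities, a projective manifold for instance). Suppose that the greatest of the
dynamical degrees `λ 0, ..., λ n` of `f` is not attained at two consecutive indices. Then some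
multiple of `K_X + Δ` has a section, and the Kodaira dimension of `K_X + Δ` is zero.

So a projective manifold of irregularity zero which has such a self-map and the Kodaira dimension
`-∞` is uniruled, by the theorem of Boucksom, Demailly, Păun and Peternell.

The birational case is `NonvanishingHyperbolic`. If `f` is not birational then `f^*` need not be
invertible on the sections of `m (K_X + Δ) + b H`, and the numerical dimension of `K_X + Δ` need not
be related to the dynamical degrees. The proof uses the number `ν`, the largest `i` such that the
degrees of the maps given by the images under `(f ^ k)^*` of the sections of `m (K_X + Δ) + b H`, for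
`b` much smaller than `m`, are at least `ε m ^ i`, with `ε` independent of `k` (`Bd`).

* If `ν ≥ 1` then the greatest dynamical degree is attained at `ν + 1` consecutive indices
  (`plateau_dyn`): the linear systems `(f ^ k(q))^* |m(q) (K_X + Δ) + b(q) H|`, where `k(q)` tends
  slowly to infinity, satisfy the conditions of the abstract plateau theorem `Sys.growth`.
* If `ν = 0` then the moving parts of the images of the linear systems are smaller and smaller, while
  the fixed parts increase. So the class of `K_X + Δ` is the limit of classes of combinations of the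
  components of the fixed parts, hence in the span of the classes of these components; as the
  coefficients of the fixed parts along a basis are bounded below, `K_X + Δ` is equivalent to an
  effective `ℚ`-divisor (`core_seq`).
-/

set_option autoImplicit false

open FF Pool.Agent.W602.GT Pool.Agent.Y172 Pool.Agent.R887 Pool.Agent.N110

namespace Pool.Agent.Results.MP_e06174_ag.NonvanishingSelfMaps

section

variable {K : Type} [Field K] [Algebra ℂ K] {N n : ℕ} {y : Fin (N + 1) → K}

/-- **Nonvanishing for varieties with a cohomologically hyperbolic rational self-map.** Let `X` be a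
normal projective variety of dimension `n ≥ 1` and irregularity zero with generic point `y`, and
`Δ` a `ℚ`-divisor such that `K_X + Δ` is pseudo-effective. Let `f : X ⇢ X` be a dominant rational
self-map, given by the endomorphism `φ` of the function field, with `f^* (K_X + Δ) ≤ K_X + Δ`, and
suppose that the greatest of the dynamical degrees `λ 0, ..., λ n` of `f` is not attained at two
consecutive indices. Then `m (K_X + Δ)` has a section `ω ≠ 0` for some `m ≥ 1`, and the Kodaira
dimension of `K_X + Δ` is zero. -/
theorem result (hy : NormalModel y) (hn : Algebra.trdeg ℂ K = n) (hn0 : 0 < n)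
    {Δ : Place ℂ K → ℚ} (hΔ : {P | IsPrimeDivisor y P ∧ Δ P ≠ 0}.Finite)
    (hq : IrregularityZero y) {φ : K →ₐ[ℂ] K} (hφ : SelfPullLe φ y n Δ)
    (hdeg : ∀ j, j + 1 ≤ n → ∃ a ≤ 1, ∃ p ≤ n,
      selfJointDegree {φ} y n (j + a) < selfJointDegree {φ} y n p)
    (hpsef : LogPsef y n Δ) :
    (∃ m : ℕ, 1 ≤ m ∧ ∃ ω : (Fin n → Derivation ℂ K K) → K, ω ≠ 0 ∧
      IsSection y n m (m • Δ) ω) ∧ kodairaDim y n Δ = ((0 : ℕ) : WithBot ℕ) :=
  K9h25.H.main hy hn hn0 hΔ hq hφ hdeg hpsef

/-- the case of canonical singularities, projective manifolds for instance -/
theorem canonical (hy : NormalModel y) (hn : Algebra.trdeg ℂ K = n) (hn0 : 0 < n)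
    (hcan : Canonical y n) (hq : IrregularityZero y) (φ : K →ₐ[ℂ] K)
    (hdeg : ∀ j, j + 1 ≤ n → ∃ a ≤ 1, ∃ p ≤ n,
      selfJointDegree {φ} y n (j + a) < selfJointDegree {φ} y n p)
    (hpsef : LogPsef y n 0) :
    (∃ m : ℕ, 1 ≤ m ∧ ∃ ω : (Fin n → Derivation ℂ K K) → K, ω ≠ 0 ∧ IsSection y n m 0 ω) ∧
      kodairaDim y n 0 = ((0 : ℕ) : WithBot ℕ) := by
  have h := result hy hn hn0 (Set.finite_empty.subset (by rintro P ⟨-, h⟩; exact h rfl)) hq
    (selfPullLe_canonical hy hn hcan φ) hdeg hpsef
  simpa only [smul_zero] using h

end

end Pool.Agent.Results.MP_e06174_ag.NonvanishingSelfMaps
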