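import Pool.Agent.K9h25.Qs3
import Pool.Agent.K9h25.Fin1

/-!
# Kodaira dimension -∞ and pseudoeffectivity for quasi-smooth hypersurfaces in toric varieties

Let `n ≥ 1`, let `f` be a nonzero Laurent polynomial in `n + 1` variables over `ℂ`, and let `V` be an
irreducible component of the hypersurface `f = 0` of the torus `(ℂ^*)^(n + 1)`, with function field
`K`; the `x i` are the coordinates on `V`. Let `Y` be a complete toric variety of dimension `n + 1`,
for instance a weighted projective space. It is given by the generators `ρ 1, ..., ρ s` of the rays
of its fan, and by the set `F` of the cones, given by the sets `I` of their rays: each integral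
vector is a sum of the `ρ i`, `i ∈ I`, with positive rational coefficients, for some cone `I ∈ F`.

In the homogeneous coordinates `z 1, ..., z s` of `Y` the closure of the hypersurface has the equation
`∑_a f_a ∏ z_i ^ (a ⬝ ρ i - m_i) = 0`, where `m_i` is the minimum of the `a ⬝ ρ i` for the exponents `a`
of `f`. The closure is quasi-smooth if this hypersurface is smooth (the gradient of the equation
does not vanish) at all its points whose zero coordinates are the `z i`, `i ∈ I`, for a cone `I ∈ F`.
The quotients by the monomial `x ^ a` of the restrictions to such points of the equation and of its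
derivative with respect to `z j`, `j ∈ I`, are the layers of `f`: the sums of the terms with
`a ⬝ ρ i = m_i` for all `i ∈ I`, respectively of those with `a ⬝ ρ j = m_j + 1` and `a ⬝ ρ i = m_i` for
the other `i ∈ I`. So `IsQuasiSmooth` says that at the points of the torus where the layer zero
vanishes its logarithmic gradient does not vanish, or one of the layers for `j ∈ I` does not vanish.
For the weighted projective space, with the `n + 2` rays with the relation `∑ w_i ρ_i = 0` and
all proper subsets as cones, these are the quasi-smooth hypersurfaces in the usual sense.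

Quasi-smooth varieties may have quotient singularities which are not canonical, and there is no
condition on the position of the closure with respect to the torus orbits: it may contain orbits and
be tangent to others. So `f` may be degenerate in the sense of Khovanskii, and the initial parts of
`f` may be arbitrary polynomials, for instance with multiple factors.

**Theorem.** Let `X` be a smooth projective variety birational to a component `V` of a quasi-smooth
hypersurface in a complete toric variety of dimension `n + 1`, `n ≥ 1`. Then `κ(X) = -∞` if and only
if `K_X` is not pseudoeffective, if and only if the real Fine interior of the Newton polytope of `f`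
is empty: there is no point `u` whose lattice distance from all supporting hyperplanes is at least
`1`.

So the question on class `C` has a positive answer for these `X`: if `κ(X) = -∞` then `K_X` is not
pseudoeffective, and then `X` is uniruled by the theorem of Boucksom, Demailly, Păun and Peternell.

Proof. Let `Om` be the residue form, `P` a prime divisor over `V`, `v` the vector of the orders of
the `x i` at `P`, in the relative interior of the cone `I`, `v = ∑ t_i ρ_i`. If the gradient of the
layer zero does not vanish at the centre of `P`, then the order of `Om` at `P` is at least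
`- 1 - min (a ⬝ v)`. Otherwise the derivative of `f` in the direction of `ρ j` has the order
`b ⬝ v` for the exponents `b` of the layer `j` (`ord_dir`), so the order of `Om` is at least
`- 1 - b ⬝ v`, because `Om` is the quotient of a logarithmic form by this derivative (`om_dir`).
This is not bounded from below by `- 1 - min (a ⬝ v)`, but for a point `u` of the Fine interior the
inequalities for `ρ j` and for the integral vector `v - c ρ j`, where `c` is the difference of
`b ⬝ v` and of the least value of `v` on the exponents with `a ⬝ ρ j = m_j`, give
`u ⬝ v ≥ 1 + b ⬝ v` (`fine_arith`), unless `v` is a multiple of `ρ j`, where there is a better bound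
for `Om`. Hence a point of the Fine interior gives an effective multiple of `K_X`. The converse is a
theorem on arbitrary hypersurfaces, see
`Pool.Agent.Results.MP_e06174_ag.MildHypersurfaces`, part 1 (`notPsef_of_empty`).
-/

set_option autoImplicit false

open FF Pool.Agent Pool.Agent.R885 Pool.Agent.W602.GT Pool.Agent.K9h25

namespace Pool.Agent.Results.MP_e06174_ag.QuasiSmoothHypersurfaces

section

variable {K : Type} [Field K] [Algebra ℂ K]

/-- `x` is the generic point of a component `V`, with function field `K`, of the hypersurface `f = 0`
of the torus `(ℂ^*) ^ (n + 1)`. -/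
structure IsGenericPoint {n : ℕ} (f : (Fin (n + 1) → ℤ) →₀ ℂ) (x : Fin (n + 1) → K) : Prop where
  f_ne : f ≠ 0
  x_ne : ∀ i, x i ≠ 0
  zero : ev x f = 0
  gen : IntermediateField.adjoin ℂ (Set.range x) = ⊤
  dim : Algebra.trdeg ℂ K = (n : ℕ)

end

/-- The `ρ i` are generators of the rays, and `F` is the set of the cones (given by the sets of their
rays) of a complete fan: the zero cone is in `F`, and each integral vector is in the relative
interior of a cone in `F`. -/
structure IsCompleteFan {r s : ℕ} (ρ : Fin s → Fin r → ℤ) (F : Set (Finset (Fin s))) : Prop where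
  zero : ∅ ∈ F
  complete : ∀ v : Fin r → ℤ, ∃ I ∈ F, ∃ t : Fin s → ℚ, (∀ i ∈ I, 0 < t i) ∧
    ∀ l, (v l : ℚ) = ∑ i ∈ I, t i * (ρ i l : ℚ)

/-- The closure of the hypersurface `f = 0` in the toric variety is quasi-smooth: in homogeneous
coordinates it is smooth at the points whose zero coordinates are the `z i`, `i ∈ I`, for all cones
`I ∈ F`. That is, at all points `c` of the torus at which the restriction of the equation, the layer
of the terms `a` with `a ⬝ ρ i = min` for `i ∈ I`, vanishes, its logarithmic gradient does not vanish,
or the restriction of the derivative with respect to some `z j`, `j ∈ I`, the layer of the terms with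
`a ⬝ ρ j = min + 1` and `a ⬝ ρ i = min` for the other `i ∈ I`, does not vanish. -/
def IsQuasiSmooth {r s : ℕ} (f : (Fin r → ℤ) →₀ ℂ) (ρ : Fin s → Fin r → ℤ)
    (F : Set (Finset (Fin s))) : Prop :=
  ∀ I ∈ F, ∀ c : Fin r → ℂ, (∀ i, c i ≠ 0) → ev c (layer f ρ I 0) = 0 →
    gr c (layer f ρ I 0) ≠ 0 ∨ ∃ j ∈ I, ev c (layer f ρ I (Pi.single j 1)) ≠ 0

/-- The real Fine interior of the Newton polytope of `f` is empty: there is no rational point `u`
such that `u ⬝ v` is at least `1` plus the minimum of `m ⬝ v`, for `m` in the support of `f`, for all
nonzero integral vectors `v`. -/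
def FineInteriorEmpty {r : ℕ} (f : (Fin r → ℤ) →₀ ℂ) : Prop :=
  ¬ ∃ u : Fin r → ℚ, ∀ v : Fin r → ℤ, v ≠ 0 →
    ∃ m ∈ f.support, 1 + ((m ⬝ᵥ v : ℤ) : ℚ) ≤ ∑ i, u i * (v i : ℚ)

/-- `K_X` is not pseudoeffective: for every finite set `S` of functions, a section of `M K_X + A`
vanishes for all large `M`, where `A` is the divisor generated by `S`; the sections are the
pluricanonical forms `ω` whose values on regular vector fields have, at every prime divisor, at
least the order of some nonzero element of `S`. -/
def NotPseudoeffective (K : Type) [Field K] [Algebra ℂ K] (n : ℕ) : Prop :=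
  ∀ S : Finset K, ∃ M0 : ℕ, ∀ M : ℕ, M0 ≤ M → ∀ ω : (Fin n → Derivation ℂ K K) → K,
    TwSec ℂ K n M (fun _ => False) S 1 ω → ∀ D, ω D = 0

/-- **Quasi-smooth hypersurfaces in toric varieties.** Let `V` be a component of the hypersurface
`f = 0` of the torus `(ℂ^*)^(n + 1)`, `n ≥ 1`, with function field `K`, whose closure in the complete
toric variety with the rays `ρ` and the cones `F` is quasi-smooth, and let `X` be smooth projective
and birational to `V`. Then `κ(X) = -∞` if and only if `K_X` is not pseudoeffective, if and only if
the real Fine interior of the Newton polytope of `f` is empty. -/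
theorem result {n s : ℕ} (hn : 1 ≤ n) {f : (Fin (n + 1) → ℤ) →₀ ℂ} {K : Type} [Field K]
    [Algebra ℂ K] {x : Fin (n + 1) → K} (hx : IsGenericPoint f x) {ρ : Fin s → Fin (n + 1) → ℤ}
    {F : Set (Finset (Fin s))} (hF : IsCompleteFan ρ F) (hf : IsQuasiSmooth f ρ F) :
    [¬ KodGe ℂ K n (fun _ => False) 0, NotPseudoeffective K n, FineInteriorEmpty f].TFAE := by
  have hFine : FineInteriorEmpty f ↔
      ¬ ∃ u : Fin (n + 1) → ℚ, ∀ v, v ≠ 0 → 1 + (mn v f : ℚ) ≤ dq u v := by
    unfold FineInteriorEmpty
    simp only [mn_iff hx.f_ne]
  have hqs : ∀ I ∈ F, QsAt f ρ I ℂ := fun I hI => hf I hI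
  have hgr : gr x f ≠ 0 := by
    have h1 : layer f ρ ∅ 0 = f := by
      ext a
      exact layer_apply (fun i hi => absurd hi (Finset.notMem_empty i))
    rcases (hqs ∅ hF.zero).ext K x hx.x_ne (by rw [h1]; exact hx.zero) with h2 | ⟨j, hj, -⟩
    · rwa [h1] at h2
    · exact absurd hj (Finset.notMem_empty j)
  tfae_have 3 → 2 := fun h =>
    notPsef_of_empty hn rfl hx.dim hx.x_ne hx.gen hx.f_ne hx.zero hgr (hFine.1 h)
  tfae_have 2 → 1 := fun h1 h2 => not_notPsef_of_kod h2 h1
  tfae_have 1 → 3 := by
    intro h1
    rw [hFine]
    rintro ⟨u, hu⟩
    exact h1 (kod_of_qs hx.x_ne hx.gen hx.dim rfl hx.f_ne hx.zero hgr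
      (fun v => by
        obtain ⟨I, hI, t, ht⟩ := hF.complete v
        exact ⟨I, hI, t, ht⟩) hqs hu)
  tfae_finish

end Pool.Agent.Results.MP_e06174_ag.QuasiSmoothHypersurfaces
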